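import Mathlib
import Pool.Agent.Y268.D3.Stm3
import Pool.Agent.H55R2.Kad5.Ult

/-!
Job D3-CENA: choice of the ultrafilter of central projections for the bilinear bound.
-/

set_option autoImplicit false

open scoped ComplexOrder InnerProductSpace

noncomputable section

namespace Pool.Agent.Y839.D3

open H759R2.Kad H770R2.Kad H770R2.Kad.AULT Y268.D3

universe u v

section alg

variable {A : Type u} [CStarAlgebra A]

theorem cpg_add {r1 r2 : A} (h1 : CPg r1) (h2 : CPg r2) (h12 : r1 * r2 = 0) : CPg (r1 + r2) := by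
  have h21 : r2 * r1 = 0 := by rw [h2.2.2, h12]
  refine ⟨by rw [star_add, h1.1, h2.1], ?_, fun a => by rw [add_mul, mul_add, h1.2.2, h2.2.2]⟩
  rw [add_mul, mul_add, mul_add, h1.2.1, h2.2.1, h12, h21, add_zero, zero_add]

theorem norm_two {r1 r2 : A} (h1 : CPg r1) (h2 : CPg r2) (h12 : r1 * r2 = 0) {x1 x2 : A}
    (hx1 : ‖x1‖ ≤ 1) (hx2 : ‖x2‖ ≤ 1) : ‖x1 * r1 + x2 * r2‖ ≤ 1 := by
  let _ := CStarAlgebra.spectralOrder A
  have _ := CStarAlgebra.spectralOrderedRing A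
  have h21 : r2 * r1 = 0 := by rw [h2.2.2, h12]
  set y := x1 * r1 + x2 * r2 with hy
  have e1 : star y * y = star r1 * (star x1 * x1) * r1 + star r2 * (star x2 * x2) * r2 := by
    have c1 : r1 * (star x1 * x2) * r2 = 0 := by rw [h1.2.2, mul_assoc, h12, mul_zero]
    have c2 : r2 * (star x2 * x1) * r1 = 0 := by rw [h2.2.2, mul_assoc, h21, mul_zero]
    rw [hy, star_add, star_mul, star_mul, h1.1, h2.1]
    calc (r1 * star x1 + r2 * star x2) * (x1 * r1 + x2 * r2) =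
          r1 * (star x1 * x1) * r1 + r1 * (star x1 * x2) * r2 +
          (r2 * (star x2 * x1) * r1 + r2 * (star x2 * x2) * r2) := by noncomm_ring
      _ = _ := by rw [c1, c2, add_zero, zero_add]
  have key : ∀ (r x : A), CPg r → ‖x‖ ≤ 1 → star r * (star x * x) * r ≤ r := by
    intro r x hr hx
    have k1 := CStarAlgebra.star_left_conjugate_le_norm_smul (a := r) (b := star x * x)
      (IsSelfAdjoint.star_mul_self x)
    have k2 : ‖star x * x‖ ≤ 1 := by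
      rw [CStarRing.norm_star_mul_self]
      nlinarith [norm_nonneg x]
    have k3 : star r * r = r := by rw [hr.1, hr.2.1]
    have k4 : (0 : A) ≤ r := by
      rw [← k3]
      exact star_mul_self_nonneg r
    rw [k3] at k1
    refine k1.trans ?_
    calc ‖star x * x‖ • r ≤ (1 : ℝ) • r := smul_le_smul_of_nonneg_right k2 k4
      _ = r := one_smul _ _
  have h3 : star y * y ≤ r1 + r2 := by
    rw [e1]
    exact add_le_add (key r1 x1 h1 hx1) (key r2 x2 h2 hx2)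
  have h4 := CStarAlgebra.norm_le_norm_of_nonneg_of_le (star_mul_self_nonneg y) h3
  rw [CStarRing.norm_star_mul_self] at h4
  have h5 := (cpg_add h1 h2 h12).norm_le
  nlinarith [norm_nonneg y]

end alg

section sup

theorem opn {E F : Type*} [NormedAddCommGroup E] [NormedSpace ℂ E] [NormedAddCommGroup F]
    [NormedSpace ℂ F] (T : E →L[ℂ] F) {s : ℝ} (h : ∀ x, ‖x‖ ≤ 1 → ‖T x‖ ^ 2 ≤ s) :
    ‖T‖ ^ 2 ≤ s := by
  have hs : 0 ≤ s := by
    have := h 0 (by simp)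
    rw [map_zero, norm_zero] at this
    simpa using this
  have h1 : ‖T‖ ≤ √s := by
    refine ContinuousLinearMap.opNorm_le_bound _ (Real.sqrt_nonneg _) fun x => ?_
    rcases eq_or_ne x 0 with rfl | hx
    · simp
    · have hx0 : 0 < ‖x‖ := norm_pos_iff.2 hx
      have h2 := h (((‖x‖⁻¹ : ℝ) : ℂ) • x) (by
        rw [norm_smul, Complex.norm_real, norm_inv, norm_norm, inv_mul_cancel₀ hx0.ne'])
      have h3 := Real.le_sqrt_of_sq_le h2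
      rw [map_smul, norm_smul, Complex.norm_real, norm_inv, norm_norm,
        inv_mul_le_iff₀ hx0] at h3
      linarith
  calc ‖T‖ ^ 2 ≤ √s ^ 2 := pow_le_pow_left₀ (norm_nonneg _) h1 2
    _ = s := Real.sq_sqrt hs

variable {A : Type u} [CStarAlgebra A]
variable {H : Type v} [NormedAddCommGroup H] [InnerProductSpace ℂ H] [CompleteSpace H]
variable {W : A →ₗ[ℂ] (H →L[ℂ] H)}

omit [CompleteSpace H] in
theorem super (hW : IsHom W) {r1 r2 : A} (h1 : CPg r1) (h2 : CPg r2) (h12 : r1 * r2 = 0)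
    (ζ : H) {a : ℝ} (ha : 0 ≤ a) (hζ : ∀ x, ‖W x ζ‖ ≤ a * ‖x‖) :
    ∃ p : ℝ × ℝ, 0 ≤ p.1 ∧ 0 ≤ p.2 ∧ p.1 ^ 2 + p.2 ^ 2 ≤ a ^ 2 ∧
      (∀ x, ‖W x (W r1 ζ)‖ ≤ p.1 * ‖x‖) ∧ ∀ x, ‖W x (W r2 ζ)‖ ≤ p.2 * ‖x‖ := by
  have hm : ∀ x r, W x (W r ζ) = W (x * r) ζ := fun x r => by
    rw [hW.mul]
    rfl
  have hbd : ∀ r, CPg r → ∀ x, ‖W x (W r ζ)‖ ≤ a * ‖x‖ := by
    intro r hr x
    rw [hm]
    refine (hζ _).trans (mul_le_mul_of_nonneg_left ?_ ha)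
    refine (norm_mul_le _ _).trans ?_
    have := hr.norm_le
    nlinarith [norm_nonneg x]
  let L : H → A →ₗ[ℂ] H := fun z => (ContinuousLinearMap.apply ℂ H z).toLinearMap.comp W
  have hL : ∀ z x, L z x = W x z := fun z x => rfl
  let T1 : A →L[ℂ] H := (L (W r1 ζ)).mkContinuous a (hbd r1 h1)
  let T2 : A →L[ℂ] H := (L (W r2 ζ)).mkContinuous a (hbd r2 h2)
  have hT1 : ∀ x, T1 x = W x (W r1 ζ) := fun x => rfl
  have hT2 : ∀ x, T2 x = W x (W r2 ζ) := fun x => rfl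
  have key : ∀ x1 x2, ‖x1‖ ≤ 1 → ‖x2‖ ≤ 1 → ‖T1 x1‖ ^ 2 + ‖T2 x2‖ ^ 2 ≤ a ^ 2 := by
    intro x1 x2 hx1 hx2
    have hb : ∀ y : A, ‖y‖ ≤ 1 → ‖W y ζ‖ ^ 2 ≤ a ^ 2 := fun y hy =>
      pow_le_pow_left₀ (norm_nonneg _) ((hζ y).trans (mul_le_of_le_one_right ha hy)) 2
    rcases exists_sign (T1 x1) (T2 x2) with h | h
    · refine h.trans ?_
      rw [hT1, hT2, hm, hm]
      have e : W (x1 * r1) ζ + W (x2 * r2) ζ = W (x1 * r1 + x2 * r2) ζ := by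
        rw [map_add]
        rfl
      rw [e]
      exact hb _ (norm_two h1 h2 h12 hx1 hx2)
    · refine h.trans ?_
      rw [hT1, hT2, hm, hm]
      have e : -W (x1 * r1) ζ + W (x2 * r2) ζ = W ((-x1) * r1 + x2 * r2) ζ := by
        rw [map_add, neg_mul, map_neg]
        rfl
      rw [e]
      exact hb _ (norm_two h1 h2 h12 (by rwa [norm_neg]) hx2)
  have k1 : ∀ x2, ‖x2‖ ≤ 1 → ‖T1‖ ^ 2 ≤ a ^ 2 - ‖T2 x2‖ ^ 2 := fun x2 hx2 =>
    opn T1 fun x1 hx1 => by linarith [key x1 x2 hx1 hx2]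
  have k2 : ‖T2‖ ^ 2 ≤ a ^ 2 - ‖T1‖ ^ 2 := opn T2 fun x2 hx2 => by linarith [k1 x2 hx2]
  exact ⟨(‖T1‖, ‖T2‖), norm_nonneg _, norm_nonneg _, by linarith, fun x => T1.le_opNorm x,
    fun x => T2.le_opNorm x⟩

/-- majorants -/
def Mj {m : ℕ} (W : A →ₗ[ℂ] (H →L[ℂ] H)) (ζ : HH (Fin m) H) (a : Fin m → ℝ) : Prop :=
  (∀ i, 0 ≤ a i) ∧ ∀ i x, ‖W x (ζ i)‖ ≤ a i * ‖x‖

theorem superm (hW : IsHom W) {r1 r2 : A} (h1 : CPg r1) (h2 : CPg r2) (h12 : r1 * r2 = 0)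
    {m : ℕ} {ζ : HH (Fin m) H} {a : Fin m → ℝ} (h : Mj W ζ a) :
    ∃ a1 a2 : Fin m → ℝ, Mj W (D W m r1 ζ) a1 ∧ Mj W (D W m r2 ζ) a2 ∧
      (∑ i, a1 i ^ 2) + (∑ i, a2 i ^ 2) ≤ ∑ i, a i ^ 2 := by
  choose p hp1 hp2 hp3 hp4 hp5 using fun i => super hW h1 h2 h12 (ζ i) (h.1 i) (h.2 i)
  refine ⟨fun i => (p i).1, fun i => (p i).2, ⟨hp1, fun i x => ?_⟩, ⟨hp2, fun i x => ?_⟩, ?_⟩
  · rw [D_apply]
    exact hp4 i x
  · rw [D_apply]
    exact hp5 i x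
  · rw [← Finset.sum_add_distrib]
    exact Finset.sum_le_sum fun i _ => hp3 i

theorem cs2 {t1 t2 k P1 P2 Q1 Q2 : ℝ} (hP1 : 0 ≤ P1) (hP2 : 0 ≤ P2)
    (hQ1 : 0 ≤ Q1) (hQ2 : 0 ≤ Q2) (h1 : t1 ^ 2 ≤ k ^ 2 * P1 * Q1) (h2 : t2 ^ 2 ≤ k ^ 2 * P2 * Q2) :
    (t1 + t2) ^ 2 ≤ k ^ 2 * (P1 + P2) * (Q1 + Q2) := by
  have h3 : 2 * (t1 * t2) ≤ k ^ 2 * P1 * Q2 + k ^ 2 * P2 * Q1 := by
    have h4 : (2 * (t1 * t2)) ^ 2 ≤ (k ^ 2 * P1 * Q2 + k ^ 2 * P2 * Q1) ^ 2 := by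
      calc (2 * (t1 * t2)) ^ 2 = 4 * (t1 ^ 2 * t2 ^ 2) := by ring
        _ ≤ 4 * ((k ^ 2 * P1 * Q1) * (k ^ 2 * P2 * Q2)) := by gcongr
        _ ≤ _ := by nlinarith [sq_nonneg (k ^ 2 * P1 * Q2 - k ^ 2 * P2 * Q1)]
    exact abs_le_of_sq_le_sq' h4 (by positivity) |>.2
  nlinarith

end sup

section main

variable {A : Type u} [CStarAlgebra A]
variable {H : Type v} [NormedAddCommGroup H] [InnerProductSpace ℂ H] [CompleteSpace H]
variable {W : A →ₗ[ℂ] (H →L[ℂ] H)} {m : ℕ} {X : CStarMatrix (Fin m) (Fin m) A} {κ : ℝ}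

/-- small central projections -/
def Sml (W : A →ₗ[ℂ] (H →L[ℂ] H)) (m : ℕ) (X : CStarMatrix (Fin m) (Fin m) A) (κ : ℝ)
    (p : A) : Prop :=
  CPg p ∧ ∀ (ζ η : HH (Fin m) H) (a b : Fin m → ℝ), Mj W ζ a → Mj (vmap W) η b →
    (∀ i, W p (ζ i) = ζ i) → (∀ i, star (W p) (η i) = η i) →
    ‖⟪amp W (Fin m) X ζ, η⟫_ℂ‖ ^ 2 ≤ κ ^ 2 * (∑ i, a i ^ 2) * ∑ i, b i ^ 2

theorem D_adj (r : A) (hr : star r = r) (u v : HH (Fin m) H) :
    ⟪D W m r u, v⟫_ℂ = ⟪u, D (vmap W) m r v⟫_ℂ := by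
  rw [PiLp.inner_apply, PiLp.inner_apply]
  refine Finset.sum_congr rfl fun i _ => ?_
  rw [D_apply, D_apply, vmap_apply, hr, ContinuousLinearMap.star_eq_adjoint,
    ContinuousLinearMap.adjoint_inner_right]

theorem piece (hW : IsHom W) {r : A} (hr : CPg r) (ζ η : HH (Fin m) H) :
    ⟪amp W (Fin m) X (D W m r ζ), η⟫_ℂ =
      ⟪amp W (Fin m) X (D W m r ζ), D (vmap W) m r η⟫_ℂ := by
  rw [← D_adj r hr.1, D_comm hW hr]
  have e : D W m r (D W m r ζ) = D W m r ζ := by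
    have := congrArg (fun T : HH (Fin m) H →L[ℂ] HH (Fin m) H => T ζ) (D_mul (m := m) hW r r)
    rw [hr.2.1] at this
    exact this.symm
  rw [e]

theorem supp {V : A →ₗ[ℂ] (H →L[ℂ] H)} (hV : IsHom V) {s r : A} (hsr : s * r = r)
    (z : HH (Fin m) H) (i : Fin m) : V s (D V m r z i) = D V m r z i := by
  rw [D_apply]
  have : V s (V r (z i)) = V (s * r) (z i) := by
    rw [hV.mul]
    rfl
  rw [this, hsr]

theorem sml_union (hW : IsHom W) {p R : A} (hp : Sml W m X κ p) (hR : CPg R)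
    (hq : Sml W m X κ (1 - R)) : Sml W m X κ (1 - (1 - p) * R) := by
  have h1 : CPg p := hp.1
  have h2 : CPg ((1 - p) * (1 - R)) := h1.one_sub.mul hR.one_sub
  have h12 : p * ((1 - p) * (1 - R)) = 0 := by
    have h0 : p * (1 - p) = 0 := by rw [mul_sub, mul_one, h1.2.1, sub_self]
    rw [← mul_assoc, h0, zero_mul]
  have hs : 1 - (1 - p) * R = p + (1 - p) * (1 - R) := by noncomm_ring
  refine ⟨(h1.one_sub.mul hR).one_sub, fun ζ η a b ha hb hζ hη => ?_⟩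
  set r2 := (1 - p) * (1 - R) with hr2
  have hr : (1 - R) * r2 = r2 := by
    rw [hr2, ← mul_assoc, hR.one_sub.2.2 (1 - p), mul_assoc, hR.one_sub.2.1]
  obtain ⟨a1, a2, ha1, ha2, ha3⟩ := superm hW h1 h2 h12 ha
  obtain ⟨b1, b2, hb1, hb2, hb3⟩ := superm hW.vmap h1 h2 h12 hb
  have hz : ζ = D W m p ζ + D W m r2 ζ := by
    have e : D W m (1 - (1 - p) * R) ζ = ζ := by
      ext i
      rw [D_apply, hζ]
    rw [hs, D_add] at e
    exact e.symm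
  have hin : ⟪amp W (Fin m) X ζ, η⟫_ℂ =
      ⟪amp W (Fin m) X (D W m p ζ), D (vmap W) m p η⟫_ℂ +
      ⟪amp W (Fin m) X (D W m r2 ζ), D (vmap W) m r2 η⟫_ℂ := by
    rw [← piece hW h1, ← piece hW h2, ← inner_add_left, ← map_add, ← hz]
  have hv : ∀ (s : A), star s = s → ∀ z, star (W s) z = vmap W s z := by
    intro s hs z
    rw [vmap_apply, hs]
  have t1 := hp.2 _ _ a1 b1 ha1 hb1 (supp hW h1.2.1 ζ) (fun i => by
    rw [hv p h1.1]
    exact supp hW.vmap h1.2.1 η i)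
  have t2 := hq.2 _ _ a2 b2 ha2 hb2 (supp hW hr ζ) (fun i => by
    rw [hv _ hR.one_sub.1]
    exact supp hW.vmap hr η i)
  rw [hin]
  have n1 : ∀ f : Fin m → ℝ, 0 ≤ ∑ i, f i ^ 2 := fun f => Finset.sum_nonneg fun i _ => sq_nonneg _
  calc ‖⟪amp W (Fin m) X (D W m p ζ), D (vmap W) m p η⟫_ℂ +
      ⟪amp W (Fin m) X (D W m r2 ζ), D (vmap W) m r2 η⟫_ℂ‖ ^ 2 ≤
      (‖⟪amp W (Fin m) X (D W m p ζ), D (vmap W) m p η⟫_ℂ‖ +
      ‖⟪amp W (Fin m) X (D W m r2 ζ), D (vmap W) m r2 η⟫_ℂ‖) ^ 2 :=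
        pow_le_pow_left₀ (norm_nonneg _) (norm_add_le _ _) 2
    _ ≤ κ ^ 2 * ((∑ i, a1 i ^ 2) + ∑ i, a2 i ^ 2) * ((∑ i, b1 i ^ 2) + ∑ i, b2 i ^ 2) :=
        cs2 (n1 _) (n1 _) (n1 _) (n1 _) t1 t2
    _ ≤ κ ^ 2 * (∑ i, a i ^ 2) * ∑ i, b i ^ 2 := by
        have := n1 b1
        have := n1 b2
        have := n1 a
        gcongr

theorem sml_rem (hW : IsHom W) : ∀ ps : List A, (∀ p ∈ ps, Sml W m X κ p) →
    Sml W m X κ (1 - rem ps)
  | [], _ => by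
    refine ⟨CPg.one.one_sub, fun ζ η a b ha hb hζ hη => ?_⟩
    have hz : ζ = 0 := by
      ext i
      rw [← hζ i, rem, sub_self, map_zero]
      rfl
    rw [hz, map_zero, inner_zero_left, norm_zero, zero_pow two_ne_zero]
    have n1 : ∀ f : Fin m → ℝ, 0 ≤ ∑ i, f i ^ 2 := fun f =>
      Finset.sum_nonneg fun i _ => sq_nonneg _
    have := n1 a
    have := n1 b
    positivity
  | p :: ps, h => by
    rw [rem]
    exact sml_union hW (h p (by simp)) (rem_CPg ps fun q hq => (h q (by simp [hq])).1)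
      (sml_rem hW ps fun q hq => h q (by simp [hq]))

/-- the choice of the ultrafilter -/
theorem zorn_gen (Small : A → Prop) (hS : ∀ p, Small p → CPg p)
    (hrem : ∀ ps : List A, (∀ p ∈ ps, Small p) → rem ps ≠ 0) :
    ∃ F : Set A, (∀ p ∈ F, CPg p) ∧ 1 ∈ F ∧ (∀ p ∈ F, ∀ q ∈ F, p * q ∈ F) ∧
      (∀ p, CPg p → p ∈ F ∨ 1 - p ∈ F) ∧ (0 : A) ∉ F ∧ ∀ p ∈ F, ¬ Small p := by
  let Z : Set (Set A) := {F | (∀ p ∈ F, CPg p) ∧ 1 ∈ F ∧ (∀ p ∈ F, ∀ q ∈ F, p * q ∈ F) ∧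
    (0 : A) ∉ F}
  let S0 : Set A := {x | ∃ ps : List A, (∀ p ∈ ps, Small p) ∧ x = rem ps}
  have hS0 : S0 ∈ Z := by
    refine ⟨?_, ⟨[], by simp, rfl⟩, ?_, ?_⟩
    · rintro _ ⟨ps, h, rfl⟩
      exact rem_CPg ps (fun p hp => hS p (h p hp))
    · rintro _ ⟨ps, h, rfl⟩ _ ⟨qs, h', rfl⟩
      refine ⟨ps ++ qs, ?_, (rem_append ps qs).symm⟩
      intro p hp
      rcases List.mem_append.1 hp with hp | hp
      · exact h p hp
      · exact h' p hp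
    · rintro ⟨ps, h, h0⟩
      exact hrem ps h h0.symm
  obtain ⟨F, hF1, hF2⟩ := zorn_subset_nonempty Z (by
    intro C hC hchain hne
    refine ⟨⋃₀ C, ⟨?_, ?_, ?_, ?_⟩, fun s hs => Set.subset_sUnion_of_mem hs⟩
    · rintro p ⟨s, hs, hp⟩
      exact (hC hs).1 p hp
    · obtain ⟨s, hs⟩ := hne
      exact ⟨s, hs, (hC hs).2.1⟩
    · rintro p ⟨s, hs, hp⟩ q ⟨t, ht, hq⟩
      rcases hchain.total hs ht with h | h
      · exact ⟨t, ht, (hC ht).2.2.1 p (h hp) q hq⟩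
      · exact ⟨s, hs, (hC hs).2.2.1 p hp q (h hq)⟩
    · rintro ⟨s, hs, h0⟩
      exact (hC hs).2.2.2 h0) S0 hS0
  obtain ⟨f1, f2, f3, f4⟩ := hF2.prop
  have key : ∀ p : A, CPg p → p ∉ F → ∃ q ∈ F, q * p = 0 := by
    intro p hp hpF
    by_contra hcon
    push Not at hcon
    let F' : Set A := F ∪ {x | ∃ q ∈ F, x = q * p}
    have hF' : F' ∈ Z := by
      refine ⟨?_, Or.inl f2, ?_, ?_⟩
      · rintro x (hx | ⟨q, hq, rfl⟩)
        · exact f1 x hx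
        · exact (f1 q hq).mul hp
      · rintro x (hx | ⟨q, hq, rfl⟩) y (hy | ⟨q', hq', rfl⟩)
        · exact Or.inl (f3 x hx y hy)
        · exact Or.inr ⟨x * q', f3 x hx q' hq', by rw [mul_assoc]⟩
        · exact Or.inr ⟨q * y, f3 q hq y hy, by rw [mul_assoc, mul_assoc, hp.2.2 y]⟩
        · refine Or.inr ⟨q * q', f3 q hq q' hq', ?_⟩
          calc q * p * (q' * p) = q * (p * q') * p := by noncomm_ring
            _ = q * (q' * p) * p := by rw [hp.2.2 q']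
            _ = q * q' * (p * p) := by noncomm_ring
            _ = q * q' * p := by rw [hp.2.1]
      · rintro (h0 | ⟨q, hq, h0⟩)
        · exact f4 h0
        · exact hcon q hq h0.symm
    have hsub : F' ⊆ F := hF2.le_of_ge hF' Set.subset_union_left
    exact hpF (hsub (Or.inr ⟨1, f2, by rw [one_mul]⟩))
  refine ⟨F, f1, f2, f3, ?_, f4, ?_⟩
  · intro p hp
    by_contra hcon
    push Not at hcon
    obtain ⟨q, hq, h1⟩ := key p hp hcon.1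
    obtain ⟨q', hq', h2⟩ := key (1 - p) hp.one_sub hcon.2
    apply f4
    have e : q * q' = 0 := by
      calc q * q' = q' * (q * p) + q * (q' * (1 - p)) := by
            have : q' * (q * p) = q * (q' * p) := by
              rw [← mul_assoc, ← mul_assoc, (f1 q hq).2.2 q']
            rw [this, mul_sub, mul_one, mul_sub]
            abel
        _ = 0 := by rw [h1, h2, mul_zero, mul_zero, add_zero]
    rw [← e]
    exact f3 q hq q' hq'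
  · intro p hp hsm
    have hcp := f1 p hp
    have h1 : 1 - p ∈ F := by
      apply hF1
      refine ⟨[p], ?_, by simp [rem]⟩
      intro q hq
      rw [List.mem_singleton] at hq
      subst hq
      exact hsm
    have h2 := f3 p hp _ h1
    rw [mul_sub, mul_one, hcp.2.1, sub_self] at h2
    exact f4 h2

omit [CompleteSpace H] in
theorem mj_scale {V : A →ₗ[ℂ] (H →L[ℂ] H)} {z : HH (Fin m) H} {a : Fin m → ℝ} (h : Mj V z a)
    {s : ℝ} (hs : 0 ≤ s) : Mj V ((s : ℂ) • z) fun i => s * a i := by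
  refine ⟨fun i => mul_nonneg hs (h.1 i), fun i x => ?_⟩
  rw [PiLp.smul_apply, map_smul, norm_smul, Complex.norm_real, Real.norm_eq_abs, abs_of_nonneg hs,
    mul_assoc]
  exact mul_le_mul_of_nonneg_left (h.2 i x) hs

omit [CompleteSpace H] in
theorem mj_zero {V : A →ₗ[ℂ] (H →L[ℂ] H)} (hV : IsHom V) {z : HH (Fin m) H} {a : Fin m → ℝ}
    (h : Mj V z a) (h0 : ∑ i, a i ^ 2 = 0) : z = 0 := by
  ext i
  have h1 : a i ^ 2 = 0 := (Finset.sum_eq_zero_iff_of_nonneg fun i _ => sq_nonneg (a i)).1 h0 i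
    (Finset.mem_univ i)
  have h2 : a i = 0 := pow_eq_zero_iff two_ne_zero |>.1 h1
  have h3 := h.2 i 1
  rw [h2, zero_mul, hV.one] at h3
  exact norm_le_zero_iff.1 h3

theorem not_sml (hW : IsHom W) {p : A} (hp : CPg p) (h : ¬ Sml W m X κ p) :
    ∃ (ζ η : HH (Fin m) H) (a b : Fin m → ℝ), (∀ i, 0 ≤ a i) ∧ (∀ i, 0 ≤ b i) ∧
        (∀ i x, ‖W x (ζ i)‖ ≤ a i * ‖x‖) ∧ (∀ i x, ‖vmap W x (η i)‖ ≤ b i * ‖x‖) ∧
        (∀ i, W p (ζ i) = ζ i) ∧ (∀ i, star (W p) (η i) = η i) ∧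
        ∑ i, a i ^ 2 ≤ 1 ∧ ∑ i, b i ^ 2 ≤ 1 ∧ κ ≤ ‖⟪amp W (Fin m) X ζ, η⟫_ℂ‖ := by
  unfold Sml at h
  push Not at h
  obtain ⟨ζ, η, a, b, ha, hb, hζ, hη, hlt⟩ := h hp
  have n1 : ∀ f : Fin m → ℝ, 0 ≤ ∑ i, f i ^ 2 := fun f => Finset.sum_nonneg fun i _ => sq_nonneg _
  have hnn : 0 ≤ κ ^ 2 * (∑ i, a i ^ 2) * ∑ i, b i ^ 2 := by
    have := n1 a
    have := n1 b
    positivity
  have hpos : 0 < ‖⟪amp W (Fin m) X ζ, η⟫_ℂ‖ ^ 2 := lt_of_le_of_lt hnn hlt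
  have hA : 0 < ∑ i, a i ^ 2 := by
    refine lt_of_le_of_ne (n1 a) fun h0 => ?_
    rw [mj_zero hW ha h0.symm, map_zero, inner_zero_left, norm_zero] at hpos
    simp at hpos
  have hB : 0 < ∑ i, b i ^ 2 := by
    refine lt_of_le_of_ne (n1 b) fun h0 => ?_
    rw [mj_zero hW.vmap hb h0.symm, inner_zero_right, norm_zero] at hpos
    simp at hpos
  set α := √(∑ i, a i ^ 2) with hα
  set β := √(∑ i, b i ^ 2) with hβ
  have hα0 : 0 < α := Real.sqrt_pos.2 hA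
  have hβ0 : 0 < β := Real.sqrt_pos.2 hB
  have hα2 : α ^ 2 = ∑ i, a i ^ 2 := Real.sq_sqrt hA.le
  have hβ2 : β ^ 2 = ∑ i, b i ^ 2 := Real.sq_sqrt hB.le
  have ha' := mj_scale ha (inv_nonneg.2 hα0.le)
  have hb' := mj_scale hb (inv_nonneg.2 hβ0.le)
  refine ⟨((α⁻¹ : ℝ) : ℂ) • ζ, ((β⁻¹ : ℝ) : ℂ) • η, fun i => α⁻¹ * a i, fun i => β⁻¹ * b i,
    ha'.1, hb'.1, ha'.2, hb'.2, fun i => ?_, fun i => ?_, ?_, ?_, ?_⟩
  · rw [PiLp.smul_apply, map_smul, hζ]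
  · rw [PiLp.smul_apply, map_smul, hη]
  · refine le_of_eq ?_
    simp only [mul_pow]
    rw [← Finset.mul_sum, ← hα2, inv_pow, inv_mul_cancel₀ (pow_ne_zero 2 hα0.ne')]
  · refine le_of_eq ?_
    simp only [mul_pow]
    rw [← Finset.mul_sum, ← hβ2, inv_pow, inv_mul_cancel₀ (pow_ne_zero 2 hβ0.ne')]
  · rw [map_smul, inner_smul_left, inner_smul_right, norm_mul, norm_mul, RCLike.norm_conj,
      Complex.norm_real, Complex.norm_real, Real.norm_eq_abs, Real.norm_eq_abs,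
      abs_of_pos (inv_pos.2 hα0), abs_of_pos (inv_pos.2 hβ0)]
    rw [← hα2, ← hβ2] at hlt
    have h1 : (κ * α * β) ^ 2 < ‖⟪amp W (Fin m) X ζ, η⟫_ℂ‖ ^ 2 := by
      calc (κ * α * β) ^ 2 = κ ^ 2 * α ^ 2 * β ^ 2 := by ring
        _ < _ := hlt
    have h2 : κ * α * β < ‖⟪amp W (Fin m) X ζ, η⟫_ℂ‖ :=
      lt_of_pow_lt_pow_left₀ 2 (norm_nonneg _) h1
    rw [← mul_assoc, ← mul_inv, inv_mul_eq_div, le_div_iff₀ (by positivity)]
    linarith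

end main

theorem prove_cenA : S_cenA := by
  intro A _ H _ _ _ W hW c hc hb m X κ hκ ζ η a b ha hb' hζ hη hlt
  obtain ⟨F, h1, h2, h3, h4, h5, h6⟩ := zorn_gen (Sml W m X κ) (fun p hp => hp.1)
    (fun ps hps h0 => by
      have h7 := sml_rem hW ps hps
      rw [h0, sub_zero] at h7
      have h8 := h7.2 ζ η a b ⟨ha, hζ⟩ ⟨hb', hη⟩ (fun i => by rw [hW.one]; rfl)
        (fun i => by rw [hW.one, star_one]; rfl)
      exact absurd h8 (not_le.2 hlt))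
  exact ⟨F, h1, h2, h3, h4, h5, fun p hp => not_sml hW (h1 p hp) (h6 p hp)⟩

end Pool.Agent.Y839.D3
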